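import Mathlib

/-!
# `3 × 3` integer matrices with `det A = det A^{∘2} = det A^{∘3} = 1`

We show that a `3 × 3` integer matrix with no zero entry cannot satisfy
`det A = det A^{∘2} = det A^{∘3} = 1`, where `A^{∘k}` is the matrix of entrywise `k`-th powers.

Write the six products in the Leibniz formula as `p₁, p₂, p₃` (even permutations) and
`q₁, q₂, q₃` (odd permutations).  Then `p₁ p₂ p₃ = q₁ q₂ q₃` and the power sums of the `p`'s exceed
those of the `q`'s by one for the exponents `1, 2, 3`.  Newton's identities give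
`q₁ q₂ + q₁ q₃ + q₂ q₃ = 0`.  If `q₁ q₂ > 0`, the monic cubic with the roots `p₁, p₂, p₃` is
negative at `q₃` and positive at `q₃ + 1`, which is impossible for integers `p₁, p₂, p₃`.
-/

set_option autoImplicit false

namespace Pool.Agent.Results.MP_0f7e3e_nt.NoNonzeroMatrix

/-- If three integers have a negative product, then the product of their successors is not
positive. -/
theorem succ_prod_nonpos (u v w : ℤ) (h : u * v * w < 0) : (u + 1) * (v + 1) * (w + 1) ≤ 0 := by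
  have hu : u ≠ 0 := by rintro rfl; simp at h
  have hv : v ≠ 0 := by rintro rfl; simp at h
  have hw : w ≠ 0 := by rintro rfl; simp at h
  rcases lt_or_gt_of_ne hu with h1 | h1 <;> rcases lt_or_gt_of_ne hv with h2 | h2 <;>
    rcases lt_or_gt_of_ne hw with h3 | h3
  · have a1 : u + 1 ≤ 0 := by omega
    have a2 : v + 1 ≤ 0 := by omega
    have a3 : w + 1 ≤ 0 := by omega
    exact mul_nonpos_of_nonneg_of_nonpos (mul_nonneg_of_nonpos_of_nonpos a1 a2) a3
  · exact absurd h (not_lt.2 (mul_pos (mul_pos_of_neg_of_neg h1 h2) h3).le)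
  · exact absurd h (not_lt.2 (mul_pos_of_neg_of_neg (mul_neg_of_neg_of_pos h1 h2) h3).le)
  · have a1 : u + 1 ≤ 0 := by omega
    have a2 : 0 ≤ v + 1 := by omega
    have a3 : 0 ≤ w + 1 := by omega
    exact mul_nonpos_of_nonpos_of_nonneg (mul_nonpos_of_nonpos_of_nonneg a1 a2) a3
  · exact absurd h (not_lt.2 (mul_pos_of_neg_of_neg (mul_neg_of_pos_of_neg h1 h2) h3).le)
  · have a1 : 0 ≤ u + 1 := by omega
    have a2 : v + 1 ≤ 0 := by omega
    have a3 : 0 ≤ w + 1 := by omega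
    exact mul_nonpos_of_nonpos_of_nonneg (mul_nonpos_of_nonneg_of_nonpos a1 a2) a3
  · have a1 : 0 ≤ u + 1 := by omega
    have a2 : 0 ≤ v + 1 := by omega
    have a3 : w + 1 ≤ 0 := by omega
    exact mul_nonpos_of_nonneg_of_nonpos (mul_nonneg a1 a2) a3
  · exact absurd h (not_lt.2 (mul_pos (mul_pos h1 h2) h3).le)

/-- The key step, with the two `q`'s of equal sign named. -/
theorem key_of_pos (p1 p2 p3 q1 q2 q3 : ℤ) (h1 : p1 + p2 + p3 = q1 + q2 + q3 + 1)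
    (h2 : p1 ^ 2 + p2 ^ 2 + p3 ^ 2 = q1 ^ 2 + q2 ^ 2 + q3 ^ 2 + 1)
    (h3 : p1 ^ 3 + p2 ^ 3 + p3 ^ 3 = q1 ^ 3 + q2 ^ 3 + q3 ^ 3 + 1)
    (h4 : p1 * p2 * p3 = q1 * q2 * q3) (hq3 : q3 ≠ 0) (hpos : 0 < q1 * q2) : False := by
  have e2p : p1 * p2 + p1 * p3 + p2 * p3
      = (q1 * q2 + q1 * q3 + q2 * q3) + (q1 + q2 + q3) := by
    have : (p1 + p2 + p3) ^ 2 = (q1 + q2 + q3 + 1) ^ 2 := by rw [h1]
    have h : 2 * (p1 * p2 + p1 * p3 + p2 * p3)
      = 2 * ((q1 * q2 + q1 * q3 + q2 * q3) + (q1 + q2 + q3)) := by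
      linear_combination this - h2
    omega
  have e2q : q1 * q2 + q1 * q3 + q2 * q3 = 0 := by
    have hp : p1 ^ 3 + p2 ^ 3 + p3 ^ 3 = (p1 + p2 + p3) ^ 3
        - 3 * (p1 + p2 + p3) * (p1 * p2 + p1 * p3 + p2 * p3) + 3 * (p1 * p2 * p3) := by ring
    have hq : q1 ^ 3 + q2 ^ 3 + q3 ^ 3 = (q1 + q2 + q3) ^ 3
        - 3 * (q1 + q2 + q3) * (q1 * q2 + q1 * q3 + q2 * q3) + 3 * (q1 * q2 * q3) := by ring
    rw [h3, hq, h1, e2p, h4] at hp
    have : 3 * (q1 * q2 + q1 * q3 + q2 * q3) = 0 := by linear_combination hp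
    omega
  -- the value of the cubic with roots `p_i` at `q3` and `q3 + 1`
  have v0 : (q3 - p1) * (q3 - p2) * (q3 - p3) = -(q1 * q2) := by
    linear_combination (-q3 ^ 2) * h1 + q3 * e2p - h4 + e2q
  have v1 : (q3 - p1 + 1) * (q3 - p2 + 1) * (q3 - p3 + 1) = q3 * (q3 + 1 - (q1 + q2)) := by
    linear_combination (-(q3 + 1) ^ 2) * h1 + (q3 + 1) * e2p - h4 + e2q
  have hneg : (q3 - p1) * (q3 - p2) * (q3 - p3) < 0 := by rw [v0]; omega
  have hle := succ_prod_nonpos _ _ _ hneg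
  rw [v1] at hle
  have hs : q3 * (q1 + q2) < 0 := by nlinarith
  rcases lt_or_gt_of_ne hq3 with h | h
  · have h5 : 0 < q1 + q2 := by
      by_contra hc
      push Not at hc
      nlinarith [mul_nonneg_of_nonpos_of_nonpos h.le hc]
    have h6 : 0 < q3 * (q3 + 1 - (q1 + q2)) := mul_pos_of_neg_of_neg h (by omega)
    omega
  · have h5 : q1 + q2 < 0 := by
      by_contra hc
      push Not at hc
      nlinarith [mul_nonneg h.le hc]
    have h6 : 0 < q3 * (q3 + 1 - (q1 + q2)) := mul_pos h (by omega)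
    omega

/-- Six nonzero integers as in the Leibniz formula cannot exist. -/
theorem key (p1 p2 p3 q1 q2 q3 : ℤ) (h1 : p1 + p2 + p3 = q1 + q2 + q3 + 1)
    (h2 : p1 ^ 2 + p2 ^ 2 + p3 ^ 2 = q1 ^ 2 + q2 ^ 2 + q3 ^ 2 + 1)
    (h3 : p1 ^ 3 + p2 ^ 3 + p3 ^ 3 = q1 ^ 3 + q2 ^ 3 + q3 ^ 3 + 1)
    (h4 : p1 * p2 * p3 = q1 * q2 * q3) (hq1 : q1 ≠ 0) (hq2 : q2 ≠ 0) (hq3 : q3 ≠ 0) : False := by
  by_cases h12 : 0 < q1 * q2
  · exact key_of_pos p1 p2 p3 q1 q2 q3 h1 h2 h3 h4 hq3 h12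
  by_cases h13 : 0 < q1 * q3
  · exact key_of_pos p1 p2 p3 q1 q3 q2 (by linarith) (by linarith) (by linarith) (by linarith)
      hq2 h13
  by_cases h23 : 0 < q2 * q3
  · exact key_of_pos p1 p2 p3 q2 q3 q1 (by linarith) (by linarith) (by linarith) (by linarith)
      hq1 h23
  have a12 : q1 * q2 < 0 := lt_of_le_of_ne (not_lt.1 h12) (mul_ne_zero hq1 hq2)
  have a13 : q1 * q3 < 0 := lt_of_le_of_ne (not_lt.1 h13) (mul_ne_zero hq1 hq3)
  have a23 : q2 * q3 < 0 := lt_of_le_of_ne (not_lt.1 h23) (mul_ne_zero hq2 hq3)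
  have hp : 0 < (q1 * q2) * (q1 * q3) := mul_pos_of_neg_of_neg a12 a13
  have hn : (q1 * q2) * (q1 * q3) * (q2 * q3) < 0 := mul_neg_of_pos_of_neg hp a23
  have hsq : (q1 * q2) * (q1 * q3) * (q2 * q3) = (q1 * q2 * q3) ^ 2 := by ring
  rw [hsq] at hn
  exact absurd hn (not_lt.2 (sq_nonneg _))

/-- **Negative answer to Q1.** No `3 × 3` integer matrix `A` all of whose entries are nonzero
satisfies `det A = det A^{∘2} = det A^{∘3} = 1`, where `A^{∘k} = A.map (· ^ k)` is the matrix of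
entrywise `k`-th powers. In particular there is none with all entries outside `{-1, 0, 1}`. -/
theorem result (A : Matrix (Fin 3) (Fin 3) ℤ) (hA : ∀ i j, A i j ≠ 0) :
    ¬ (A.det = 1 ∧ (A.map (· ^ 2)).det = 1 ∧ (A.map (· ^ 3)).det = 1) := by
  rintro ⟨h1, h2, h3⟩
  rw [Matrix.det_fin_three] at h1 h2 h3
  simp only [Matrix.map_apply] at h2 h3
  refine key (A 0 0 * A 1 1 * A 2 2) (A 0 1 * A 1 2 * A 2 0) (A 0 2 * A 1 0 * A 2 1)
    (A 0 0 * A 1 2 * A 2 1) (A 0 1 * A 1 0 * A 2 2) (A 0 2 * A 1 1 * A 2 0)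
    (by linarith) (by linear_combination h2) (by linear_combination h3) (by ring)
    (mul_ne_zero (mul_ne_zero (hA _ _) (hA _ _)) (hA _ _))
    (mul_ne_zero (mul_ne_zero (hA _ _) (hA _ _)) (hA _ _))
    (mul_ne_zero (mul_ne_zero (hA _ _) (hA _ _)) (hA _ _))

end Pool.Agent.Results.MP_0f7e3e_nt.NoNonzeroMatrix
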